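import Mathlib

set_option autoImplicit false

/-!
From finite-rank contractions `T k → id` (pointwise) to a sequence of rank-one operators all of
whose partial sums are contractions and converge pointwise to the identity.
-/

namespace Pool.Agent.H759R2.Steps

open Filter Topology

noncomputable section

variable {F : Type} [NormedAddCommGroup F] [NormedSpace ℝ F]

/-- A finite-rank operator is a finite sum of rank-one operators with nonzero vectors. -/
lemma rep [Nontrivial F] (D : F →L[ℝ] F)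
    (hD : FiniteDimensional ℝ (LinearMap.range (D : F →ₗ[ℝ] F))) :
    ∃ (d : ℕ) (φ : ℕ → F →L[ℝ] ℝ) (z : ℕ → F), 0 < d ∧ (∀ i, z i ≠ 0) ∧
      ∀ x, D x = ∑ i ∈ Finset.range d, φ i x • z i := by
  obtain ⟨v, hv⟩ := exists_ne (0 : F)
  set W := LinearMap.range (D : F →ₗ[ℝ] F) with hW
  set r := Module.finrank ℝ W with hr
  let b : Module.Basis (Fin r) ℝ W := Module.finBasis ℝ W
  let D' : F →L[ℝ] W := D.codRestrict W (fun x => ⟨x, rfl⟩)
  let c : Fin r → (F →L[ℝ] ℝ) := fun i => (LinearMap.toContinuousLinearMap (b.coord i)).comp D'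
  refine ⟨r + 1, fun i => if h : i < r then c ⟨i, h⟩ else 0,
    fun i => if h : i < r then (b ⟨i, h⟩ : F) else v, Nat.succ_pos _, ?_, ?_⟩
  · intro i
    dsimp only
    split_ifs with h
    · intro h0
      exact b.ne_zero ⟨i, h⟩ (Subtype.ext h0)
    · exact hv
  · intro x
    rw [Finset.sum_range_succ]
    simp only [lt_irrefl, dif_neg, not_false_eq_true]
    have h1 : ((0 : F →L[ℝ] ℝ) x) • v = 0 := by simp
    rw [h1, add_zero, ← Fin.sum_univ_eq_sum_range (fun i =>
      ((if h : i < r then c ⟨i, h⟩ else 0 : F →L[ℝ] ℝ) x) •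
        (if h : i < r then (b ⟨i, h⟩ : F) else v)) r]
    have h2 : D x = ((D' x : W) : F) := rfl
    rw [h2]
    have h3 := b.sum_repr (D' x)
    conv_lhs => rw [← h3]
    rw [Submodule.coe_sum]
    apply Finset.sum_congr rfl
    intro i _
    simp only [Fin.is_lt, dif_pos, Fin.eta]
    rfl

section states

variable (d m : ℕ → ℕ)

/-- the next state -/
def nxt (s : ℕ × ℕ × ℕ) : ℕ × ℕ × ℕ :=
  if s.2.2 + 1 < d s.1 then (s.1, s.2.1, s.2.2 + 1)
  else if s.2.1 + 1 < m s.1 then (s.1, s.2.1 + 1, 0) else (s.1 + 1, 0, 0)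

/-- the sequence of states `(block, round, index)` -/
def st : ℕ → ℕ × ℕ × ℕ
  | 0 => (0, 0, 0)
  | n + 1 => nxt d m (st n)

/-- start of the block `k` -/
def P (k : ℕ) : ℕ := ∑ j ∈ Finset.range k, m j * d j

variable {d m}

lemma st_inv (hd : ∀ k, 0 < d k) (hm : ∀ k, 0 < m k) (n : ℕ) :
    (st d m n).2.1 < m (st d m n).1 ∧ (st d m n).2.2 < d (st d m n).1 ∧
      n = P d m (st d m n).1 + (st d m n).2.1 * d (st d m n).1 + (st d m n).2.2 := by
  induction n with
  | zero => simp [st, P, hd, hm]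
  | succ n ih =>
    obtain ⟨h1, h2, h3⟩ := ih
    set s := st d m n with hs
    have e : st d m (n + 1) = nxt d m s := rfl
    rw [e, nxt]
    split_ifs with c1 c2
    · refine ⟨h1, c1, ?_⟩
      dsimp only
      omega
    · refine ⟨c2, hd _, ?_⟩
      dsimp only
      have : s.2.2 + 1 = d s.1 := by omega
      have e2 : (s.2.1 + 1) * d s.1 = s.2.1 * d s.1 + d s.1 := by ring
      omega
    · refine ⟨hm _, hd _, ?_⟩
      dsimp only
      have a1 : s.2.2 + 1 = d s.1 := by omega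
      have a2 : s.2.1 + 1 = m s.1 := by omega
      have e2 : m s.1 * d s.1 = s.2.1 * d s.1 + d s.1 := by rw [← a2]; ring
      have e3 : P d m (s.1 + 1) = P d m s.1 + m s.1 * d s.1 := by
        rw [P, Finset.sum_range_succ]; rfl
      omega

lemma P_mono {a b : ℕ} (h : a ≤ b) : P d m a ≤ P d m b := by
  apply Finset.sum_le_sum_of_subset
  intro x hx
  rw [Finset.mem_range] at *
  omega

lemma st_ge (hd : ∀ k, 0 < d k) (hm : ∀ k, 0 < m k) (K n : ℕ) (hn : P d m K ≤ n) :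
    K ≤ (st d m n).1 := by
  obtain ⟨h1, h2, h3⟩ := st_inv hd hm n
  by_contra hlt
  push Not at hlt
  set s := st d m n with hs
  have e3 : P d m (s.1 + 1) = P d m s.1 + m s.1 * d s.1 := by
    rw [P, Finset.sum_range_succ]; rfl
  have h4 : P d m (s.1 + 1) ≤ P d m K := P_mono (by omega)
  have h5 : s.2.1 * d s.1 + s.2.2 < m s.1 * d s.1 := by
    have : (s.2.1 + 1) * d s.1 ≤ m s.1 * d s.1 := Nat.mul_le_mul_right _ h1
    have e2 : (s.2.1 + 1) * d s.1 = s.2.1 * d s.1 + d s.1 := by ring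
    omega
  omega

/-- Partial sums along the states. -/
lemma sum_st {G : Type} [AddCommGroup G] [Module ℝ G] (hd : ∀ k, 0 < d k) (hm : ∀ k, 0 < m k)
    (U : ℕ → G) (R : ℕ → ℕ → G) (hU0 : U 0 = 0)
    (hR : ∀ k, ∑ i ∈ Finset.range (d k), R k i = U (k + 1) - U k) (n : ℕ) :
    ∑ j ∈ Finset.range n, ((m (st d m j).1 : ℝ)⁻¹ • R (st d m j).1 (st d m j).2.2) =
      U (st d m n).1 + (((st d m n).2.1 : ℝ) / (m (st d m n).1 : ℝ)) •
        (U ((st d m n).1 + 1) - U (st d m n).1) +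
      (m (st d m n).1 : ℝ)⁻¹ • ∑ i ∈ Finset.range (st d m n).2.2, R (st d m n).1 i := by
  induction n with
  | zero => simp [st, hU0]
  | succ n ih =>
    rw [Finset.sum_range_succ, ih]
    obtain ⟨h1, h2, -⟩ := st_inv hd hm n
    set s := st d m n with hs
    have e : st d m (n + 1) = nxt d m s := rfl
    have hm0 : (m s.1 : ℝ) ≠ 0 := by
      have := hm s.1
      positivity
    rw [e, nxt]
    split_ifs with c1 c2
    · dsimp only
      rw [Finset.sum_range_succ, smul_add]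
      abel
    · dsimp only
      have hi : s.2.2 + 1 = d s.1 := by omega
      have hsum : ∑ i ∈ Finset.range s.2.2, R s.1 i + R s.1 s.2.2 = U (s.1 + 1) - U s.1 := by
        rw [← Finset.sum_range_succ, hi, hR]
      rw [Finset.sum_range_zero, smul_zero, add_zero, add_assoc, ← smul_add, hsum]
      push_cast
      rw [add_assoc, ← add_smul]
      congr 2
      field_simp
    · dsimp only
      have hi : s.2.2 + 1 = d s.1 := by omega
      have hq : (s.2.1 : ℝ) + 1 = (m s.1 : ℝ) := by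
        have : s.2.1 + 1 = m s.1 := by omega
        exact_mod_cast this
      have hsum : ∑ i ∈ Finset.range s.2.2, R s.1 i + R s.1 s.2.2 = U (s.1 + 1) - U s.1 := by
        rw [← Finset.sum_range_succ, hi, hR]
      rw [Finset.sum_range_zero, smul_zero, add_zero, add_assoc, ← smul_add, hsum]
      rw [add_assoc, ← add_smul]
      have h1 : (s.2.1 : ℝ) / (m s.1 : ℝ) + (m s.1 : ℝ)⁻¹ = 1 := by
        rw [← hq]
        have : (s.2.1 : ℝ) + 1 ≠ 0 := by positivity
        field_simp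
      rw [h1, one_smul]
      simp

end states

/-- Main lemma of this file. -/
theorem exists_steps [Nontrivial F] (T : ℕ → F →L[ℝ] F)
    (hfin : ∀ k, FiniteDimensional ℝ (LinearMap.range (T k : F →ₗ[ℝ] F)))
    (hT : ∀ k, ‖T k‖ ≤ 1) (hlim : ∀ x, Tendsto (fun k => T k x) atTop (𝓝 x)) :
    ∃ (f : ℕ → F →L[ℝ] ℝ) (y : ℕ → F), (∀ j, y j ≠ 0) ∧
      (∀ n x, ‖∑ j ∈ Finset.range n, f j x • y j‖ ≤ ‖x‖) ∧
      ∀ x, Tendsto (fun n => ∑ j ∈ Finset.range n, f j x • y j) atTop (𝓝 x) := by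
  classical
  let U : ℕ → F →L[ℝ] F := fun k => ((k : ℝ) / ((k : ℝ) + 1)) • T (k - 1)
  have hU0 : U 0 = 0 := by simp [U]
  have hUn : ∀ k, ‖U k‖ ≤ (k : ℝ) / ((k : ℝ) + 1) := by
    intro k
    have h0 : 0 ≤ (k : ℝ) / ((k : ℝ) + 1) := by positivity
    calc ‖U k‖ = (k : ℝ) / ((k : ℝ) + 1) * ‖T (k - 1)‖ := by
          rw [norm_smul, Real.norm_of_nonneg h0]
      _ ≤ (k : ℝ) / ((k : ℝ) + 1) * 1 := mul_le_mul_of_nonneg_left (hT _) h0
      _ = _ := mul_one _
  have hUlim : ∀ x, Tendsto (fun k => U k x) atTop (𝓝 x) := by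
    intro x
    have h1 : Tendsto (fun k : ℕ => (k : ℝ) / ((k : ℝ) + 1)) atTop (𝓝 1) :=
      tendsto_natCast_div_add_atTop (1 : ℝ)
    have h2 : Tendsto (fun k : ℕ => T (k - 1) x) atTop (𝓝 x) :=
      (hlim x).comp (tendsto_sub_atTop_nat 1)
    have h3 := h1.smul h2
    rw [one_smul] at h3
    exact h3
  have hUfin : ∀ k, FiniteDimensional ℝ (LinearMap.range (U k : F →ₗ[ℝ] F)) := by
    intro k
    have := hfin (k - 1)
    apply Submodule.finiteDimensional_of_le (S₂ := LinearMap.range (T (k - 1) : F →ₗ[ℝ] F))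
    rintro _ ⟨x, rfl⟩
    exact Submodule.smul_mem _ _ ⟨x, rfl⟩
  have hDfin : ∀ k, FiniteDimensional ℝ (LinearMap.range ((U (k + 1) - U k : F →L[ℝ] F) :
      F →ₗ[ℝ] F)) := by
    intro k
    have h1 := hUfin (k + 1)
    have h2 := hUfin k
    apply Submodule.finiteDimensional_of_le (S₂ := LinearMap.range (U (k + 1) : F →ₗ[ℝ] F) ⊔
      LinearMap.range (U k : F →ₗ[ℝ] F))
    rintro _ ⟨x, rfl⟩
    exact Submodule.sub_mem _ (Submodule.mem_sup_left ⟨x, rfl⟩) (Submodule.mem_sup_right ⟨x, rfl⟩)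
  choose d φ z hd hz hrep using fun k => rep (U (k + 1) - U k) (hDfin k)
  -- the total size of block `k`
  let C : ℕ → ℝ := fun k => ∑ i ∈ Finset.range (d k), ‖φ k i‖ * ‖z k i‖
  have hC0 : ∀ k, 0 ≤ C k := fun k => Finset.sum_nonneg fun i _ => by positivity
  let m : ℕ → ℕ := fun k => ⌈C k * ((k : ℝ) + 2)⌉₊ + 1
  have hm : ∀ k, 0 < m k := fun k => Nat.succ_pos _
  have hmR : ∀ k, (0 : ℝ) < m k := fun k => by exact_mod_cast hm k
  have hCm : ∀ k, (m k : ℝ)⁻¹ * C k ≤ 1 / ((k : ℝ) + 2) := by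
    intro k
    have h1 : C k * ((k : ℝ) + 2) ≤ (m k : ℝ) := by
      have := Nat.le_ceil (C k * ((k : ℝ) + 2))
      have h2 : ((m k : ℕ) : ℝ) = (⌈C k * ((k : ℝ) + 2)⌉₊ : ℝ) + 1 := by
        simp [m]
      linarith
    rw [inv_mul_le_iff₀ (hmR k), mul_one_div, le_div_iff₀ (by positivity)]
    exact h1
  let R : ℕ → ℕ → F →L[ℝ] F := fun k i => (φ k i).smulRight (z k i)
  have hR : ∀ k, ∑ i ∈ Finset.range (d k), R k i = U (k + 1) - U k := by
    intro k
    ext x
    rw [ContinuousLinearMap.sum_apply, hrep k x]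
    rfl
  have hsum := sum_st hd hm U R hU0 hR
  set s := st d m with hs
  refine ⟨fun j => (m (s j).1 : ℝ)⁻¹ • φ (s j).1 (s j).2.2, fun j => z (s j).1 (s j).2.2,
    fun j => hz _ _, ?_, ?_⟩
  all_goals
    have hform : ∀ n x, ∑ j ∈ Finset.range n,
        ((m (s j).1 : ℝ)⁻¹ • φ (s j).1 (s j).2.2) x • z (s j).1 (s j).2.2 =
        ((1 - ((s n).2.1 : ℝ) / (m (s n).1 : ℝ)) • U (s n).1 x +
          (((s n).2.1 : ℝ) / (m (s n).1 : ℝ)) • U ((s n).1 + 1) x) +
        (m (s n).1 : ℝ)⁻¹ • ∑ i ∈ Finset.range (s n).2.2, φ (s n).1 i x • z (s n).1 i := by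
      intro n x
      have h1 := congrArg (fun A : F →L[ℝ] F => A x) (hsum n)
      simp only [ContinuousLinearMap.sum_apply, ContinuousLinearMap.add_apply,
        ContinuousLinearMap.smul_apply, ContinuousLinearMap.sub_apply, R,
        ContinuousLinearMap.smulRight_apply] at h1
      have h2 : ∀ j, ((m (s j).1 : ℝ)⁻¹ • φ (s j).1 (s j).2.2) x • z (s j).1 (s j).2.2 =
          (m (s j).1 : ℝ)⁻¹ • φ (s j).1 (s j).2.2 x • z (s j).1 (s j).2.2 := by
        intro j
        rw [ContinuousLinearMap.smul_apply, smul_eq_mul, smul_smul]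
      simp only [h2]
      rw [h1, smul_sub, sub_smul, one_smul]
      abel
    have hq : ∀ n, 0 ≤ ((s n).2.1 : ℝ) / (m (s n).1 : ℝ) ∧ ((s n).2.1 : ℝ) / (m (s n).1 : ℝ) ≤ 1 := by
      intro n
      have h1 := (st_inv hd hm n).1
      refine ⟨by positivity, ?_⟩
      rw [div_le_one (hmR _)]
      exact_mod_cast h1.le
    have herr : ∀ n x, ‖(m (s n).1 : ℝ)⁻¹ • ∑ i ∈ Finset.range (s n).2.2,
        φ (s n).1 i x • z (s n).1 i‖ ≤ 1 / (((s n).1 : ℝ) + 2) * ‖x‖ := by
      intro n x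
      have h1 := (st_inv hd hm n).2.1
      rw [norm_smul, Real.norm_of_nonneg (by positivity)]
      have h2 : ‖∑ i ∈ Finset.range (s n).2.2, φ (s n).1 i x • z (s n).1 i‖ ≤ C (s n).1 * ‖x‖ := by
        calc _ ≤ ∑ i ∈ Finset.range (s n).2.2, ‖φ (s n).1 i x • z (s n).1 i‖ := norm_sum_le _ _
          _ ≤ ∑ i ∈ Finset.range (s n).2.2, ‖φ (s n).1 i‖ * ‖z (s n).1 i‖ * ‖x‖ := by
            apply Finset.sum_le_sum
            intro i _
            rw [norm_smul]
            calc _ ≤ (‖φ (s n).1 i‖ * ‖x‖) * ‖z (s n).1 i‖ :=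
                  mul_le_mul_of_nonneg_right ((φ (s n).1 i).le_opNorm x) (norm_nonneg _)
              _ = _ := by ring
          _ ≤ ∑ i ∈ Finset.range (d (s n).1), ‖φ (s n).1 i‖ * ‖z (s n).1 i‖ * ‖x‖ := by
            apply Finset.sum_le_sum_of_subset_of_nonneg
            · intro i hi
              rw [Finset.mem_range] at *
              exact lt_trans hi h1
            · intro i _ _
              positivity
          _ = _ := by rw [← Finset.sum_mul]
      calc _ ≤ (m (s n).1 : ℝ)⁻¹ * (C (s n).1 * ‖x‖) :=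
            mul_le_mul_of_nonneg_left h2 (by positivity)
        _ = ((m (s n).1 : ℝ)⁻¹ * C (s n).1) * ‖x‖ := by ring
        _ ≤ _ := mul_le_mul_of_nonneg_right (hCm _) (norm_nonneg _)
  · intro n x
    rw [hform]
    obtain ⟨hq0, hq1⟩ := hq n
    set k := (s n).1 with hk
    set q := ((s n).2.1 : ℝ) / (m k : ℝ) with hqq
    have hU1 : ‖U k x‖ ≤ ((k : ℝ) + 1) / ((k : ℝ) + 2) * ‖x‖ := by
      refine ((U k).le_of_opNorm_le (hUn k) x).trans ?_
      apply mul_le_mul_of_nonneg_right _ (norm_nonneg _)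
      rw [div_le_div_iff₀ (by positivity) (by positivity)]
      nlinarith
    have hU2 : ‖U (k + 1) x‖ ≤ ((k : ℝ) + 1) / ((k : ℝ) + 2) * ‖x‖ := by
      refine ((U (k + 1)).le_of_opNorm_le (hUn (k + 1)) x).trans ?_
      apply mul_le_mul_of_nonneg_right _ (norm_nonneg _)
      push_cast
      apply le_of_eq
      congr 1
      ring
    have h3 := herr n x
    have h4 : ‖(1 - q) • U k x + q • U (k + 1) x‖ ≤ ((k : ℝ) + 1) / ((k : ℝ) + 2) * ‖x‖ := by
      refine (norm_add_le _ _).trans ?_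
      rw [norm_smul, norm_smul, Real.norm_of_nonneg hq0, Real.norm_of_nonneg (by linarith)]
      nlinarith
    calc _ ≤ ‖(1 - q) • U k x + q • U (k + 1) x‖ + _ := norm_add_le _ _
      _ ≤ ((k : ℝ) + 1) / ((k : ℝ) + 2) * ‖x‖ + 1 / ((k : ℝ) + 2) * ‖x‖ := add_le_add h4 h3
      _ = ‖x‖ := by field_simp; ring
  · intro x
    rw [Metric.tendsto_atTop]
    intro ε hε
    obtain ⟨N1, hN1⟩ := (Metric.tendsto_atTop.mp (hUlim x)) (ε / 2) (by positivity)
    obtain ⟨N2, hN2⟩ := exists_nat_gt (2 * ‖x‖ / ε)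
    refine ⟨P d m (max N1 N2), fun n hn => ?_⟩
    have hk := st_ge hd hm _ n hn
    rw [dist_eq_norm, hform]
    obtain ⟨hq0, hq1⟩ := hq n
    have h3 := herr n x
    set k := (s n).1 with hkk
    set q := ((s n).2.1 : ℝ) / (m k : ℝ) with hqq
    have hk1 : N1 ≤ k := (le_max_left _ _).trans hk
    have hk2 : (N2 : ℝ) ≤ k := by exact_mod_cast (le_max_right _ _).trans hk
    have hU1 := hN1 k hk1
    have hU2 := hN1 (k + 1) (by omega)
    rw [dist_eq_norm] at hU1 hU2
    have e : ((1 - q) • U k x + q • U (k + 1) x +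
        (m k : ℝ)⁻¹ • ∑ i ∈ Finset.range (s n).2.2, φ k i x • z k i) - x =
        ((1 - q) • (U k x - x) + q • (U (k + 1) x - x)) +
        (m k : ℝ)⁻¹ • ∑ i ∈ Finset.range (s n).2.2, φ k i x • z k i := by
      rw [smul_sub, smul_sub, sub_smul 1 q x, one_smul]
      abel
    rw [e]
    have h4 : ‖(1 - q) • (U k x - x) + q • (U (k + 1) x - x)‖ ≤ ε / 2 := by
      refine (norm_add_le _ _).trans ?_
      rw [norm_smul, norm_smul, Real.norm_of_nonneg hq0, Real.norm_of_nonneg (by linarith)]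
      nlinarith
    have h5 : 1 / ((k : ℝ) + 2) * ‖x‖ < ε / 2 := by
      rw [one_div, inv_mul_lt_iff₀ (by positivity)]
      rw [div_lt_iff₀ hε] at hN2
      nlinarith
    calc _ ≤ ‖(1 - q) • (U k x - x) + q • (U (k + 1) x - x)‖ + _ := norm_add_le _ _
      _ < ε / 2 + ε / 2 := by linarith
      _ = ε := by ring

end

end Pool.Agent.H759R2.Steps
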