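import Mathlib
import Pool.Agent.H759R2.Steps

set_option autoImplicit false

/-!
The space of sequences `s : ℕ → F` with `s 0 = 0`, `s (n+1) - s n ∈ ℝ y n` and `s` convergent, with
the sup norm: it has a monotone basis.
-/

namespace Pool.Agent.H759R2.MonoSpace

open Filter Topology
open scoped ENNReal

noncomputable section

variable {F : Type} [NormedAddCommGroup F] [NormedSpace ℝ F]

/-- bounded sequences -/
abbrev LL (F : Type) [NormedAddCommGroup F] := lp (fun _ : ℕ => F) ∞

lemma norm_ap (s : LL F) (n : ℕ) : ‖s n‖ ≤ ‖s‖ := lp.norm_apply_le_norm (by simp) s n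

/-- the space -/
def BB (y : ℕ → F) : Submodule ℝ (LL F) where
  carrier := {s | s 0 = 0 ∧ (∀ n, s (n + 1) - s n ∈ Submodule.span ℝ {y n}) ∧
    CauchySeq (fun n => s n)}
  zero_mem' := by
    refine ⟨rfl, fun n => ?_, ?_⟩
    · have : (0 : LL F) (n + 1) - (0 : LL F) n = 0 := by simp
      rw [this]
      exact Submodule.zero_mem _
    · have : (fun n => (0 : LL F) n) = fun _ => (0 : F) := rfl
      rw [this]
      exact cauchySeq_const 0
  add_mem' := by
    rintro s t ⟨h1, h2, h3⟩ ⟨g1, g2, g3⟩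
    refine ⟨?_, fun n => ?_, ?_⟩
    · rw [lp.coeFn_add, Pi.add_apply, h1, g1, add_zero]
    · have : (s + t) (n + 1) - (s + t) n = (s (n + 1) - s n) + (t (n + 1) - t n) := by
        simp only [lp.coeFn_add, Pi.add_apply]
        abel
      rw [this]
      exact Submodule.add_mem _ (h2 n) (g2 n)
    · have : (fun n => (s + t) n) = (fun n => s n) + (fun n => t n) := by
        funext n
        simp only [lp.coeFn_add, Pi.add_apply]
      rw [this]
      exact h3.add g3
  smul_mem' := by
    rintro c s ⟨h1, h2, h3⟩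
    refine ⟨?_, fun n => ?_, ?_⟩
    · rw [lp.coeFn_smul, Pi.smul_apply, h1, smul_zero]
    · have : (c • s) (n + 1) - (c • s) n = c • (s (n + 1) - s n) := by
        simp only [lp.coeFn_smul, Pi.smul_apply]
        rw [smul_sub]
      rw [this]
      exact Submodule.smul_mem _ _ (h2 n)
    · have : (fun n => (c • s) n) = fun n => c • s n := by
        funext n
        simp only [lp.coeFn_smul, Pi.smul_apply]
      rw [this]
      exact (uniformContinuous_const_smul c).comp_cauchySeq h3

lemma isClosed_BB (y : ℕ → F) : IsClosed (BB y : Set (LL F)) := by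
  have hev : ∀ n : ℕ, Continuous (fun s : LL F => s n) := by
    intro n
    rw [Metric.continuous_iff]
    intro s ε hε
    refine ⟨ε, hε, fun t ht => ?_⟩
    rw [dist_eq_norm] at *
    have := norm_ap (t - s) n
    rw [lp.coeFn_sub, Pi.sub_apply] at this
    exact lt_of_le_of_lt this ht
  have hset : (BB y : Set (LL F)) = {s : LL F | s 0 = 0} ∩
      ((⋂ n : ℕ, {s : LL F | s (n + 1) - s n ∈ Submodule.span ℝ {y n}}) ∩
        {s : LL F | CauchySeq (fun n => s n)}) := by
    ext s
    simp only [Set.mem_inter_iff, Set.mem_iInter, Set.mem_setOf_eq]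
    rfl
  rw [hset]
  refine (isClosed_eq (hev 0) continuous_const).inter ((isClosed_iInter fun n => ?_).inter ?_)
  · exact (Submodule.closed_of_finiteDimensional (Submodule.span ℝ {y n})).preimage
      ((hev (n + 1)).sub (hev n))
  · rw [← isSeqClosed_iff_isClosed]
    intro u s hu hlim
    show CauchySeq (fun n => s n)
    rw [Metric.cauchySeq_iff]
    intro ε hε
    obtain ⟨k, hk⟩ := ((Metric.tendsto_atTop.mp hlim) (ε / 3) (by positivity))
    have hk' := hk k le_rfl
    rw [dist_eq_norm] at hk'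
    have hc : CauchySeq (fun n => u k n) := hu k
    rw [Metric.cauchySeq_iff] at hc
    obtain ⟨N, hN⟩ := hc (ε / 3) (by positivity)
    refine ⟨N, fun a ha b hb => ?_⟩
    have h1 := hN a ha b hb
    have h2 := norm_ap (u k - s) a
    have h3 := norm_ap (u k - s) b
    rw [lp.coeFn_sub, Pi.sub_apply] at h2 h3
    have h4 : dist (s a) (s b) ≤ dist (s a) (u k a) + dist (u k a) (u k b) + dist (u k b) (s b) :=
      dist_triangle4 _ _ _ _
    rw [dist_comm (s a) (u k a), dist_eq_norm (u k a) (s a), dist_eq_norm (u k b) (s b)] at h4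
    linarith

instance [CompleteSpace F] (y : ℕ → F) : CompleteSpace (BB y) :=
  (isClosed_BB y).completeSpace_coe

/-- the sequence frozen at time `n` -/
def frz (n : ℕ) (s : LL F) : LL F :=
  ⟨fun k => s (min k n), by
    apply memℓp_infty
    refine ⟨‖s‖, ?_⟩
    rintro _ ⟨k, rfl⟩
    exact norm_ap s _⟩

lemma frz_apply (n : ℕ) (s : LL F) (k : ℕ) : (frz n s) k = s (min k n) := rfl

/-- the basis vectors: `0` before time `j`, `y j` after -/
def ev (y : ℕ → F) (j : ℕ) : BB y :=
  ⟨⟨fun k => if j < k then y j else 0, by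
    apply memℓp_infty
    refine ⟨‖y j‖, ?_⟩
    rintro _ ⟨k, rfl⟩
    dsimp only
    split_ifs
    · exact le_rfl
    · simp⟩, by
    refine ⟨?_, fun n => ?_, ?_⟩
    · show (if j < 0 then y j else 0) = 0
      simp
    · show (if j < n + 1 then y j else 0) - (if j < n then y j else 0) ∈ _
      by_cases h : j = n
      · subst h
        simp [Submodule.mem_span_singleton_self]
      · by_cases h1 : j < n
        · rw [if_pos (by omega), if_pos h1, sub_self]
          exact Submodule.zero_mem _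
        · rw [if_neg (by omega), if_neg h1, sub_self]
          exact Submodule.zero_mem _
    · show CauchySeq (fun k => if j < k then y j else 0)
      have : Tendsto (fun k : ℕ => if j < k then y j else 0) atTop (𝓝 (y j)) := by
        apply tendsto_const_nhds.congr'
        filter_upwards [eventually_gt_atTop j] with k hk
        rw [if_pos hk]
      exact this.cauchySeq⟩

lemma ev_apply (y : ℕ → F) (j k : ℕ) : ((ev y j : BB y) : LL F) k = if j < k then y j else 0 := rfl

/-- coordinates of a finite combination -/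
lemma comb_apply (y : ℕ → F) (a : ℕ → ℝ) (n k : ℕ) :
    ((∑ i ∈ Finset.range n, a i • ev y i : BB y) : LL F) k =
      ∑ i ∈ Finset.range (min k n), a i • y i := by
  induction n with
  | zero => simp
  | succ n ih =>
    rw [Finset.sum_range_succ, Submodule.coe_add, lp.coeFn_add, Pi.add_apply, ih,
      Submodule.coe_smul, lp.coeFn_smul, Pi.smul_apply, ev_apply]
    by_cases h : n < k
    · rw [if_pos h, min_eq_right (by omega : n ≤ k), min_eq_right (by omega : n + 1 ≤ k),
        Finset.sum_range_succ]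
    · rw [if_neg h, min_eq_left (by omega : k ≤ n), min_eq_left (by omega : k ≤ n + 1), smul_zero,
        add_zero]

/-- the coefficients of an element -/
lemma exists_coef (y : ℕ → F) (s : BB y) : ∃ a : ℕ → ℝ, ∀ n, (s : LL F) n =
    ∑ i ∈ Finset.range n, a i • y i := by
  have h := s.2.2.1
  choose a ha using fun n => Submodule.mem_span_singleton.mp (h n)
  refine ⟨a, fun n => ?_⟩
  induction n with
  | zero =>
    rw [Finset.sum_range_zero]
    exact s.2.1
  | succ n ih =>
    rw [Finset.sum_range_succ, ← ih, ha n]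
    abel

lemma tendsto_coef (y : ℕ → F) (s : BB y) (a : ℕ → ℝ)
    (ha : ∀ n, (s : LL F) n = ∑ i ∈ Finset.range n, a i • y i) :
    Tendsto (fun n => ∑ i ∈ Finset.range n, a i • ev y i) atTop (𝓝 s) := by
  rw [Metric.tendsto_atTop]
  intro ε hε
  have hc := s.2.2.2
  rw [Metric.cauchySeq_iff] at hc
  obtain ⟨N, hN⟩ := hc (ε / 2) (by positivity)
  refine ⟨N, fun n hn => ?_⟩
  rw [dist_eq_norm]
  have : ‖(∑ i ∈ Finset.range n, a i • ev y i) - s‖ ≤ ε / 2 := by
    show ‖(((∑ i ∈ Finset.range n, a i • ev y i) - s : BB y) : LL F)‖ ≤ ε / 2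
    apply lp.norm_le_of_forall_le (by positivity)
    intro k
    rw [Submodule.coe_sub, lp.coeFn_sub, Pi.sub_apply, comb_apply, ← ha]
    by_cases hk : k ≤ n
    · rw [min_eq_left hk, sub_self, norm_zero]
      positivity
    · rw [min_eq_right (by omega), ← dist_eq_norm]
      exact (hN n hn k (by omega)).le
  linarith

theorem basis_BB (y : ℕ → F) (hy : ∀ j, y j ≠ 0) (s : BB y) :
    ∃! a : ℕ → ℝ, Tendsto (fun n : ℕ => ∑ i ∈ Finset.range n, a i • ev y i) atTop (𝓝 s) := by
  obtain ⟨a, ha⟩ := exists_coef y s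
  refine ⟨a, tendsto_coef y s a ha, ?_⟩
  intro b hb
  have hcoord : ∀ k, (s : LL F) k = ∑ i ∈ Finset.range k, b i • y i := by
    intro k
    have h1 : Tendsto (fun n : ℕ => ((∑ i ∈ Finset.range n, b i • ev y i : BB y) : LL F) k) atTop
        (𝓝 ((s : LL F) k)) := by
      rw [Metric.tendsto_atTop]
      intro ε hε
      obtain ⟨N, hN⟩ := (Metric.tendsto_atTop.mp hb) ε hε
      refine ⟨N, fun n hn => ?_⟩
      have h2 := hN n hn
      rw [dist_eq_norm] at *
      have h3 := norm_ap (((∑ i ∈ Finset.range n, b i • ev y i) - s : BB y) : LL F) k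
      rw [Submodule.coe_sub, lp.coeFn_sub, Pi.sub_apply] at h3
      refine lt_of_le_of_lt h3 ?_
      rw [← Submodule.coe_sub]
      exact h2
    have h2 : Tendsto (fun n : ℕ => ((∑ i ∈ Finset.range n, b i • ev y i : BB y) : LL F) k) atTop
        (𝓝 (∑ i ∈ Finset.range k, b i • y i)) := by
      apply tendsto_const_nhds.congr'
      filter_upwards [eventually_ge_atTop k] with n hn
      rw [comb_apply, min_eq_left hn]
    exact tendsto_nhds_unique h1 h2
  funext n
  have h1 := hcoord (n + 1)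
  have h2 := hcoord n
  have h3 := ha (n + 1)
  have h4 := ha n
  rw [Finset.sum_range_succ, ← h2] at h1
  rw [Finset.sum_range_succ, ← h4] at h3
  have h5 : b n • y n = a n • y n := by
    have := h1.symm.trans h3
    exact add_left_cancel this
  have h6 : (b n - a n) • y n = 0 := by rw [sub_smul, h5, sub_self]
  rcases smul_eq_zero.mp h6 with h | h
  · linarith
  · exact absurd h (hy n)

theorem mono_BB (y : ℕ → F) (a : ℕ → ℝ) (n m : ℕ) (h : n ≤ m) :
    ‖∑ i ∈ Finset.range n, a i • ev y i‖ ≤ ‖∑ i ∈ Finset.range m, a i • ev y i‖ := by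
  show ‖((∑ i ∈ Finset.range n, a i • ev y i : BB y) : LL F)‖ ≤
    ‖((∑ i ∈ Finset.range m, a i • ev y i : BB y) : LL F)‖
  apply lp.norm_le_of_forall_le (norm_nonneg _)
  intro k
  rw [comb_apply]
  have h1 := norm_ap ((∑ i ∈ Finset.range m, a i • ev y i : BB y) : LL F) (min k n)
  rw [comb_apply] at h1
  have h2 : min (min k n) m = min k n := by omega
  rwa [h2] at h1

/-- The limit operator. -/
def lim [CompleteSpace F] (y : ℕ → F) : BB y →L[ℝ] F :=
  LinearMap.mkContinuous
    { toFun := fun s => limUnder atTop (fun n => (s : LL F) n)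
      map_add' := fun s t => by
        apply Tendsto.limUnder_eq
        have h1 := s.2.2.2.tendsto_limUnder
        have h2 := t.2.2.2.tendsto_limUnder
        exact h1.add h2
      map_smul' := fun c s => by
        apply Tendsto.limUnder_eq
        have h1 := s.2.2.2.tendsto_limUnder
        exact h1.const_smul c } 1
    (fun s => by
      rw [one_mul]
      have h1 : Tendsto (fun n => ‖(s : LL F) n‖) atTop
        (𝓝 ‖limUnder atTop (fun n => (s : LL F) n)‖) := s.2.2.2.tendsto_limUnder.norm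
      exact le_of_tendsto h1 (Eventually.of_forall fun n => norm_ap _ n))

lemma lim_tendsto [CompleteSpace F] (y : ℕ → F) (s : BB y) :
    Tendsto (fun n => (s : LL F) n) atTop (𝓝 (lim y s)) :=
  s.2.2.2.tendsto_limUnder

lemma lim_norm [CompleteSpace F] (y : ℕ → F) (s : BB y) : ‖lim y s‖ ≤ ‖s‖ := by
  exact le_of_tendsto (lim_tendsto y s).norm (Eventually.of_forall fun n => norm_ap _ n)

variable (f : ℕ → F →L[ℝ] ℝ) (y : ℕ → F)

/-- The embedding of `F`. -/
def emb (hb : ∀ n x, ‖∑ j ∈ Finset.range n, f j x • y j‖ ≤ ‖x‖)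
    (hl : ∀ x, Tendsto (fun n => ∑ j ∈ Finset.range n, f j x • y j) atTop (𝓝 x)) : F →ₗ[ℝ] BB y where
  toFun x := ⟨⟨fun n => ∑ j ∈ Finset.range n, f j x • y j, by
      apply memℓp_infty
      refine ⟨‖x‖, ?_⟩
      rintro _ ⟨k, rfl⟩
      exact hb k x⟩, by
      refine ⟨?_, fun n => ?_, ?_⟩
      · show ∑ j ∈ Finset.range 0, f j x • y j = 0
        simp
      · show (∑ j ∈ Finset.range (n + 1), f j x • y j) - (∑ j ∈ Finset.range n, f j x • y j) ∈ _
        rw [Finset.sum_range_succ, add_sub_cancel_left]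
        exact Submodule.smul_mem _ _ (Submodule.mem_span_singleton_self _)
      · exact (hl x).cauchySeq⟩
  map_add' x x' := by
    apply Subtype.ext
    ext n
    show ∑ j ∈ Finset.range n, f j (x + x') • y j = (∑ j ∈ Finset.range n, f j x • y j) +
      ∑ j ∈ Finset.range n, f j x' • y j
    rw [← Finset.sum_add_distrib]
    exact Finset.sum_congr rfl fun j _ => by rw [map_add, add_smul]
  map_smul' c x := by
    apply Subtype.ext
    ext n
    show ∑ j ∈ Finset.range n, f j (c • x) • y j = c • ∑ j ∈ Finset.range n, f j x • y j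
    rw [Finset.smul_sum]
    exact Finset.sum_congr rfl fun j _ => by rw [map_smul, smul_smul, smul_eq_mul]

lemma emb_apply (hb : ∀ n x, ‖∑ j ∈ Finset.range n, f j x • y j‖ ≤ ‖x‖)
    (hl : ∀ x, Tendsto (fun n => ∑ j ∈ Finset.range n, f j x • y j) atTop (𝓝 x)) (x : F) (n : ℕ) :
    ((emb f y hb hl x : BB y) : LL F) n = ∑ j ∈ Finset.range n, f j x • y j := rfl

lemma emb_norm (hb : ∀ n x, ‖∑ j ∈ Finset.range n, f j x • y j‖ ≤ ‖x‖)
    (hl : ∀ x, Tendsto (fun n => ∑ j ∈ Finset.range n, f j x • y j) atTop (𝓝 x)) (x : F) :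
    ‖emb f y hb hl x‖ = ‖x‖ := by
  apply le_antisymm
  · show ‖((emb f y hb hl x : BB y) : LL F)‖ ≤ ‖x‖
    apply lp.norm_le_of_forall_le (norm_nonneg _)
    intro k
    exact hb k x
  · exact le_of_tendsto (hl x).norm (Eventually.of_forall fun n =>
      norm_ap ((emb f y hb hl x : BB y) : LL F) n)

/-- **Main result of this file.** If some sequence of rank-one operators on the Banach space `F`
has contractive partial sums converging to the identity, and `F` has no monotone basis, then there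
is a counterexample to the inheritance of monotone bases. -/
theorem main [CompleteSpace F] (hy : ∀ j, y j ≠ 0)
    (hb : ∀ n x, ‖∑ j ∈ Finset.range n, f j x • y j‖ ≤ ‖x‖)
    (hl : ∀ x, Tendsto (fun n => ∑ j ∈ Finset.range n, f j x • y j) atTop (𝓝 x))
    (hF : ¬ FiniteDimensional ℝ F)
    (hno : ¬ ∃ g : ℕ → F, (∀ x : F, ∃! a : ℕ → ℝ,
        Tendsto (fun n : ℕ => ∑ i ∈ Finset.range n, a i • g i) atTop (𝓝 x)) ∧
      (∀ (a : ℕ → ℝ) (n m : ℕ), n ≤ m →
        ‖∑ i ∈ Finset.range n, a i • g i‖ ≤ ‖∑ i ∈ Finset.range m, a i • g i‖)) :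
    ¬ (∀ (B : Type) [NormedAddCommGroup B] [NormedSpace ℝ B] [CompleteSpace B],
    ¬ FiniteDimensional ℝ B →
    (∃ e : ℕ → B,
      (∀ x : B, ∃! a : ℕ → ℝ,
        Tendsto (fun n : ℕ => ∑ i ∈ Finset.range n, a i • e i) atTop (𝓝 x)) ∧
      (∀ (a : ℕ → ℝ) (n m : ℕ), n ≤ m →
        ‖∑ i ∈ Finset.range n, a i • e i‖ ≤ ‖∑ i ∈ Finset.range m, a i • e i‖)) →
    ∀ F : Submodule ℝ B, IsClosed (F : Set B) → ¬ FiniteDimensional ℝ F →
      (∃ P : B →L[ℝ] B, (∀ x : B, P x ∈ F) ∧ (∀ x ∈ F, P x = x) ∧ ‖P‖ ≤ 1) →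
      ∃ f : ℕ → B, (∀ i : ℕ, f i ∈ F) ∧
        (∀ x ∈ F, ∃! a : ℕ → ℝ,
          Tendsto (fun n : ℕ => ∑ i ∈ Finset.range n, a i • f i) atTop (𝓝 x)) ∧
        (∀ (a : ℕ → ℝ) (n m : ℕ), n ≤ m →
          ‖∑ i ∈ Finset.range n, a i • f i‖ ≤ ‖∑ i ∈ Finset.range m, a i • f i‖)) := by
  intro hall
  set J := emb f y hb hl with hJ
  let J' : F →ₗᵢ[ℝ] BB y := ⟨J, emb_norm f y hb hl⟩
  have hJ' : ∀ x, J' x = J x := fun _ => rfl
  have hlimJ : ∀ x, lim y (J x) = x := fun x =>
    tendsto_nhds_unique (lim_tendsto y (J x)) (hl x)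
  have hinfR : ¬ FiniteDimensional ℝ (LinearMap.range J) := by
    intro h
    exact hF (LinearEquiv.ofInjective J J'.injective).symm.finiteDimensional
  have hinfB : ¬ FiniteDimensional ℝ (BB y) := by
    intro h
    exact hinfR inferInstance
  obtain ⟨g, hg1, hg2, hg3⟩ := hall (BB y) hinfB ⟨ev y, basis_BB y hy, mono_BB y⟩
    (LinearMap.range J) (by
      have := J'.isometry.isClosedEmbedding.isClosed_range
      convert this using 1
      ext x
      simp [hJ']) hinfR
    ⟨J'.toContinuousLinearMap.comp (lim y), fun x => ⟨lim y x, rfl⟩, by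
      rintro _ ⟨x, rfl⟩
      show J (lim y (J x)) = J x
      rw [hlimJ], by
      apply ContinuousLinearMap.opNorm_le_bound _ zero_le_one
      intro x
      rw [one_mul]
      show ‖J (lim y x)‖ ≤ ‖x‖
      rw [emb_norm]
      exact lim_norm y x⟩
  choose h hh using hg1
  have hg : ∀ i, g i = J (h i) := fun i => (hh i).symm
  have hcomb : ∀ (a : ℕ → ℝ) (n : ℕ), ∑ i ∈ Finset.range n, a i • g i =
      J (∑ i ∈ Finset.range n, a i • h i) := by
    intro a n
    rw [map_sum]
    exact Finset.sum_congr rfl fun i _ => by rw [hg, map_smul]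
  have hten : ∀ (a : ℕ → ℝ) (x : F), Tendsto (fun n : ℕ => ∑ i ∈ Finset.range n, a i • g i) atTop
      (𝓝 (J x)) ↔ Tendsto (fun n : ℕ => ∑ i ∈ Finset.range n, a i • h i) atTop (𝓝 x) := by
    intro a x
    simp only [hcomb]
    exact (J'.isometry.isEmbedding.tendsto_nhds_iff (f := fun n : ℕ =>
      ∑ i ∈ Finset.range n, a i • h i)).symm
  apply hno
  refine ⟨h, fun x => ?_, fun a n m hnm => ?_⟩
  · obtain ⟨a, ha, huniq⟩ := hg2 (J x) ⟨x, rfl⟩
    refine ⟨a, (hten a x).mp ha, fun b hb => huniq b ((hten b x).mpr hb)⟩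
  · have := hg3 a n m hnm
    rw [hcomb, hcomb, emb_norm, emb_norm] at this
    exact this

end

end Pool.Agent.H759R2.MonoSpace
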