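import Mathlib

set_option autoImplicit false

/-!
A maximal triangular algebra that is not norm closed.
-/

namespace Pool.Agent.H759R2.Tri

open Filter Topology
open scoped InnerProductSpace

noncomputable section

/-- the group -/
abbrev V := List Bool →₀ ℤ

/-- the substitution attached to a word -/
def ph (w : List Bool) : V →+ V := Finsupp.mapDomain.addMonoidHom (fun l => w ++ l)

lemma ph_apply (w : List Bool) (v : V) : ph w v = Finsupp.mapDomain (fun l => w ++ l) v := rfl

lemma ph_nil (v : V) : ph [] v = v := by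
  rw [ph_apply]
  exact Finsupp.mapDomain_id

lemma ph_append (w w' : List Bool) (v : V) : ph (w ++ w') v = ph w (ph w' v) := by
  rw [ph_apply, ph_apply, ph_apply, ← Finsupp.mapDomain_comp]
  congr 1
  funext l
  simp

lemma app_inj (w : List Bool) : Function.Injective (fun l : List Bool => w ++ l) :=
  List.append_right_injective w

lemma ph_inj (w : List Bool) : Function.Injective (ph w) :=
  Finsupp.mapDomain_injective (app_inj w)

lemma ph_apply_app (w l : List Bool) (v : V) : ph w v (w ++ l) = v l :=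
  Finsupp.mapDomain_apply (app_inj w) v l

lemma ph_apply_notin (w l : List Bool) (v : V) (h : ∀ l', l ≠ w ++ l') : ph w v l = 0 := by
  apply Finsupp.mapDomain_notin_range
  rintro ⟨l', hl'⟩
  exact h l' hl'.symm

/-- the two basic substitutions have independent ranges -/
lemma ph_indep (s t : V) (h : ph [false] s = ph [true] t) : s = 0 := by
  ext l
  have h1 := ph_apply_app [false] l s
  rw [h, ph_apply_notin] at h1
  · rw [← h1]; rfl
  · intro l' hl'
    simp at hl'

/-- the test vectors of the group -/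
def sk (k : ℕ) : V := Finsupp.single (List.replicate k true) 1

lemma ph_sk (w : List Bool) (k : ℕ) :
    ph w (sk k) = Finsupp.single (w ++ List.replicate k true) 1 := by
  rw [ph_apply, sk, Finsupp.mapDomain_single]

lemma rep_inj (w : List Bool) {j k : ℕ}
    (h : w ++ List.replicate j true = w ++ List.replicate k true) : j = k := by
  have := congrArg List.length h
  simp at this
  exact this

lemma diff_inj (w w' : List Bool) (h : w ≠ w') (y : V) :
    Function.Injective (fun k : ℕ => y + (ph w (sk k) - ph w' (sk k))) := by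
  intro j k hjk
  have h1 : ph w (sk j) - ph w' (sk j) = ph w (sk k) - ph w' (sk k) := add_left_cancel hjk
  by_contra hne
  have h2 := DFunLike.congr_fun h1 (w ++ List.replicate j true)
  rw [ph_sk, ph_sk, ph_sk, ph_sk, Finsupp.sub_apply, Finsupp.sub_apply, Finsupp.single_eq_same,
    Finsupp.single_eq_of_ne, Finsupp.single_eq_of_ne] at h2
  · by_cases h3 : w' ++ List.replicate k true = w ++ List.replicate j true
    · rw [h3, Finsupp.single_eq_same] at h2
      norm_num at h2
    · rw [Finsupp.single_eq_of_ne (Ne.symm h3)] at h2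
      norm_num at h2
  · intro h3
    exact hne (rep_inj w h3)
  · intro h3
    exact h (List.append_left_injective _ h3)

variable {H : Type} [NormedAddCommGroup H] [InnerProductSpace ℂ H] [CompleteSpace H]

section general

variable {ι : Type} (b : HilbertBasis ι ℂ H)

/-- the isometry moving the basis -/
def W (g : ι → ι) (hg : Function.Injective g) : H →L[ℂ] H :=
  ((b.orthonormal.comp g hg).orthogonalFamily.linearIsometry.comp
    b.repr.toLinearIsometry).toContinuousLinearMap

lemma W_b (g : ι → ι) (hg : Function.Injective g) (v : ι) : W b g hg (b v) = b (g v) := by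
  classical
  show (b.orthonormal.comp g hg).orthogonalFamily.linearIsometry (b.repr (b v)) = b (g v)
  rw [b.repr_self, OrthogonalFamily.linearIsometry_apply_single]
  simp

lemma W_norm (g : ι → ι) (hg : Function.Injective g) (x : H) : ‖W b g hg x‖ = ‖x‖ :=
  ((b.orthonormal.comp g hg).orthogonalFamily.linearIsometry.comp
    b.repr.toLinearIsometry).norm_map x

lemma W_inner (g : ι → ι) (hg : Function.Injective g) (x y : H) :
    ⟪W b g hg x, W b g hg y⟫_ℂ = ⟪x, y⟫_ℂ :=
  ((b.orthonormal.comp g hg).orthogonalFamily.linearIsometry.comp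
    b.repr.toLinearIsometry).inner_map_map x y

lemma star_W_mul (g : ι → ι) (hg : Function.Injective g) : star (W b g hg) * W b g hg = 1 := by
  ext x
  apply ext_inner_left ℂ
  intro y
  rw [ContinuousLinearMap.mul_apply, ContinuousLinearMap.star_eq_adjoint,
    ContinuousLinearMap.adjoint_inner_right, W_inner]
  rfl

lemma ext_b {A B : H →L[ℂ] H} (h : ∀ v, A (b v) = B (b v)) : A = B := by
  apply ContinuousLinearMap.ext_on (s := Set.range b)
  · have := b.dense_span
    rw [Submodule.dense_iff_topologicalClosure_eq_top]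
    exact this
  · rintro _ ⟨v, rfl⟩
    exact h v

lemma inner_b [DecidableEq ι] (s t : ι) : ⟪b s, b t⟫_ℂ = if s = t then 1 else 0 :=
  orthonormal_iff_ite.mp b.orthonormal s t

lemma ext_b2 {A B : H →L[ℂ] H} (h : ∀ s t, ⟪b t, A (b s)⟫_ℂ = ⟪b t, B (b s)⟫_ℂ) : A = B := by
  apply ext_b b
  intro s
  apply b.repr.injective
  ext t
  rw [b.repr_apply_apply, b.repr_apply_apply]
  exact h s t

lemma tendsto_coord (x : H) : Tendsto (fun v => ⟪b v, x⟫_ℂ) cofinite (𝓝 0) := by
  have h1 : Summable fun i => ‖⟪b i, x⟫_ℂ‖ ^ 2 := b.orthonormal.inner_products_summable x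
  have h2 := h1.tendsto_cofinite_zero
  rw [tendsto_zero_iff_norm_tendsto_zero]
  have h3 := h2.sqrt
  rw [Real.sqrt_zero] at h3
  refine h3.congr fun v => ?_
  rw [Real.sqrt_sq (norm_nonneg _)]

lemma hasSum_apply (A : H →L[ℂ] H) (x : H) (t : ι) :
    HasSum (fun v => ⟪b v, x⟫_ℂ * ⟪b t, A (b v)⟫_ℂ) ⟪b t, A x⟫_ℂ := by
  have h1 := b.hasSum_repr x
  have h2 := (innerSL ℂ (b t)).hasSum (A.hasSum h1)
  have h3 : (fun v => ⟪b v, x⟫_ℂ * ⟪b t, A (b v)⟫_ℂ) =
      fun v => (innerSL ℂ (b t)) (A (b.repr x v • b v)) := by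
    funext v
    rw [map_smul, map_smul, b.repr_apply_apply, smul_eq_mul]
    rfl
  rw [h3]
  exact h2

end general

section special

variable (b : HilbertBasis V ℂ H)

/-- translations -/
def L (s : V) : H →L[ℂ] H := W b (fun v => v + s) (add_left_injective s)

lemma L_b (s v : V) : L b s (b v) = b (v + s) := W_b b _ _ v

lemma L_mul (s t : V) : L b s * L b t = L b (s + t) := by
  apply ext_b b
  intro v
  rw [ContinuousLinearMap.mul_apply, L_b, L_b, L_b]
  congr 1
  abel

lemma L_zero : L b 0 = 1 := by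
  apply ext_b b
  intro v
  rw [L_b, add_zero]
  rfl

lemma star_L (s : V) : star (L b s) = L b (-s) := by
  have h1 : star (L b s) * L b s = 1 := star_W_mul b _ _
  have h2 : L b s * L b (-s) = 1 := by rw [L_mul, add_neg_cancel, L_zero]
  calc star (L b s) = star (L b s) * (L b s * L b (-s)) := by rw [h2, mul_one]
    _ = _ := by rw [← mul_assoc, h1, one_mul]

/-- the spaces of intertwiners -/
def M (w : List Bool) : Submodule ℂ (H →L[ℂ] H) where
  carrier := {B | ∀ s, B * L b s = L b (ph w s) * B}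
  zero_mem' := fun s => by rw [zero_mul, mul_zero]
  add_mem' := fun {A B} hA hB s => by rw [add_mul, mul_add, hA s, hB s]
  smul_mem' := fun c A hA s => by
    rw [smul_mul_assoc, mul_smul_comm, hA s]

lemma mem_M {w : List Bool} {B : H →L[ℂ] H} : B ∈ M b w ↔ ∀ s, B * L b s = L b (ph w s) * B :=
  Iff.rfl

lemma mem_M_nil {B : H →L[ℂ] H} : B ∈ M b [] ↔ ∀ s, B * L b s = L b s * B := by
  rw [mem_M]
  simp only [ph_nil]

lemma M_mul {w w' : List Bool} {A B : H →L[ℂ] H} (hA : A ∈ M b w) (hB : B ∈ M b w') :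
    A * B ∈ M b (w ++ w') := by
  intro s
  rw [mul_assoc, hB s, ← mul_assoc, hA, mul_assoc, ph_append]

lemma L_mem (s : V) : L b s ∈ M b [] := by
  rw [mem_M_nil]
  intro t
  rw [L_mul, L_mul, add_comm]

lemma one_mem_M : (1 : H →L[ℂ] H) ∈ M b [] := by
  rw [mem_M_nil]
  intro t
  rw [one_mul, mul_one]

lemma star_mem_M {A : H →L[ℂ] H} (hA : A ∈ M b []) : star A ∈ M b [] := by
  rw [mem_M_nil] at *
  intro s
  have h := congrArg star (hA (-s))
  rw [star_mul, star_mul, star_L, neg_neg] at h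
  exact h.symm

/-- the matrix entries of an intertwiner -/
lemma M_entry {w : List Bool} {A : H →L[ℂ] H} (hA : A ∈ M b w) (s t : V) :
    ⟪b t, A (b s)⟫_ℂ = ⟪b (t - ph w s), A (b 0)⟫_ℂ := by
  have h1 : A (b s) = L b (ph w s) (A (b 0)) := by
    have h2 := congrArg (fun B : H →L[ℂ] H => B (b 0)) (hA s)
    simp only [ContinuousLinearMap.mul_apply, L_b, zero_add] at h2
    exact h2
  rw [h1]
  have h3 : b t = L b (ph w s) (b (t - ph w s)) := by
    rw [L_b, sub_add_cancel]
  conv_lhs => rw [h3]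
  exact W_inner b _ _ _ _

lemma M_eq_zero {w : List Bool} {A : H →L[ℂ] H} (hA : A ∈ M b w)
    (h : ∀ t, ⟪b t, A (b 0)⟫_ℂ = 0) : A = 0 := by
  apply ext_b2 b
  intro s t
  rw [M_entry b hA, h]
  simp

lemma M_nil_comm {A B : H →L[ℂ] H} (hA : A ∈ M b []) (hB : B ∈ M b []) : A * B = B * A := by
  have hAB : A * B ∈ M b [] := by
    rw [mem_M_nil] at *
    intro s
    rw [mul_assoc, hB s, ← mul_assoc, hA s, mul_assoc]
  have hBA : B * A ∈ M b [] := by
    rw [mem_M_nil] at *
    intro s
    rw [mul_assoc, hA s, ← mul_assoc, hB s, mul_assoc]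
  apply ext_b2 b
  intro s t
  rw [M_entry b hAB, M_entry b hBA]
  set x := t - ph [] s
  have h1 := hasSum_apply b A (B (b 0)) x
  have h2 := hasSum_apply b B (A (b 0)) x
  have h3 : (fun v => ⟪b v, A (b 0)⟫_ℂ * ⟪b x, B (b v)⟫_ℂ) =
      (fun v => ⟪b v, B (b 0)⟫_ℂ * ⟪b x, A (b v)⟫_ℂ) ∘ (Equiv.subLeft x) := by
    funext v
    have e1 : ∀ v : V, ⟪b x, B (b v)⟫_ℂ = ⟪b (x - v), B (b 0)⟫_ℂ := fun v => by
      rw [M_entry b hB v x, ph_nil]
    rw [Function.comp_apply, Equiv.subLeft_apply]
    have e2 : ⟪b x, A (b (x - v))⟫_ℂ = ⟪b v, A (b 0)⟫_ℂ := by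
      rw [M_entry b hA (x - v) x, ph_nil, sub_sub_cancel]
    rw [e2, e1 v, mul_comm]
  rw [h3, (Equiv.subLeft x).hasSum_iff] at h2
  exact h1.unique h2

lemma centralizer_M : Set.centralizer (M b [] : Set (H →L[ℂ] H)) = (M b [] : Set (H →L[ℂ] H)) := by
  ext A
  constructor
  · intro hA
    rw [SetLike.mem_coe, mem_M_nil]
    intro s
    exact (hA (L b s) (L_mem b s)).symm
  · intro hA B hB
    exact M_nil_comm b hB hA

/-- the small triangular algebra -/
def T0 : Subalgebra ℂ (H →L[ℂ] H) :=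
  (⨆ w, M b w).toSubalgebra (Submodule.mem_iSup_of_mem [] (one_mem_M b)) (by
    intro x y hx hy
    induction hx using Submodule.iSup_induction' with
    | mem w x hx =>
      induction hy using Submodule.iSup_induction' with
      | mem w' y hy => exact Submodule.mem_iSup_of_mem (w ++ w') (M_mul b hx hy)
      | zero => rw [mul_zero]; exact Submodule.zero_mem _
      | add y y' _ _ h1 h2 => rw [mul_add]; exact Submodule.add_mem _ h1 h2
    | zero => rw [zero_mul]; exact Submodule.zero_mem _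
    | add x x' _ _ h1 h2 => rw [add_mul]; exact Submodule.add_mem _ h1 h2)

lemma mem_T0 {x : H →L[ℂ] H} : x ∈ T0 b ↔ x ∈ ⨆ w, M b w := Iff.rfl

lemma M_le_T0 {w : List Bool} {x : H →L[ℂ] H} (hx : x ∈ M b w) : x ∈ T0 b :=
  Submodule.mem_iSup_of_mem w hx

lemma limit_entry {w w' : List Bool} (h : w ≠ w') (y : V) (x : H) :
    Tendsto (fun k : ℕ => ⟪b (y + (ph w (sk k) - ph w' (sk k))), x⟫_ℂ) atTop (𝓝 0) := by
  have h1 := (diff_inj w w' h y).tendsto_cofinite
  rw [Nat.cofinite_eq_atTop] at h1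
  exact (tendsto_coord b x).comp h1

theorem diag_T0 {x : H →L[ℂ] H} (hx : x ∈ T0 b) (hx' : star x ∈ T0 b) : x ∈ M b [] := by
  classical
  rw [mem_T0, Submodule.mem_iSup_iff_exists_finsupp] at hx hx'
  obtain ⟨B, hB, hBx⟩ := hx
  obtain ⟨C, hC, hCx⟩ := hx'
  have hzero : ∀ w0, w0 ≠ [] → B w0 = 0 := by
    intro w0 hw0
    apply M_eq_zero b (hB w0)
    intro y
    by_cases hmem : w0 ∈ B.support
    swap
    · rw [Finsupp.notMem_support_iff] at hmem
      rw [hmem]
      simp
    -- the entries along the sequence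
    set t : ℕ → V := fun k => ph w0 (sk k) + y with ht
    have e1 : ∀ k, ⟪b (t k), x (b (sk k))⟫_ℂ = ∑ w ∈ B.support,
        ⟪b (y + (ph w0 (sk k) - ph w (sk k))), B w (b 0)⟫_ℂ := by
      intro k
      rw [← hBx, Finsupp.sum, ContinuousLinearMap.sum_apply, inner_sum]
      apply Finset.sum_congr rfl
      intro w _
      rw [M_entry b (hB w)]
      have h9 : t k - ph w (sk k) = y + (ph w0 (sk k) - ph w (sk k)) := by
        show ph w0 (sk k) + y - ph w (sk k) = y + (ph w0 (sk k) - ph w (sk k))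
        abel
      rw [h9]
    have e2 : ∀ k, ⟪b (t k), x (b (sk k))⟫_ℂ = (starRingEnd ℂ) (∑ v ∈ C.support,
        ⟪b (-(ph v y) + (ph [] (sk k) - ph (v ++ w0) (sk k))), C v (b 0)⟫_ℂ) := by
      intro k
      have h1 : ⟪b (t k), x (b (sk k))⟫_ℂ = ⟪star x (b (t k)), b (sk k)⟫_ℂ := by
        rw [ContinuousLinearMap.star_eq_adjoint, ContinuousLinearMap.adjoint_inner_left]
      rw [h1, ← inner_conj_symm]
      congr 1
      rw [← hCx, Finsupp.sum, ContinuousLinearMap.sum_apply, inner_sum]
      apply Finset.sum_congr rfl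
      intro v _
      rw [M_entry b (hC v)]
      have h9 : sk k - ph v (t k) = -(ph v y) + (ph [] (sk k) - ph (v ++ w0) (sk k)) := by
        show sk k - ph v (ph w0 (sk k) + y) = -(ph v y) + (ph [] (sk k) - ph (v ++ w0) (sk k))
        rw [ph_nil, ph_append, (ph v).map_add]
        abel
      rw [h9]
    have l1 : Tendsto (fun k => ⟪b (t k), x (b (sk k))⟫_ℂ) atTop
        (𝓝 (∑ w ∈ B.support, if w = w0 then ⟪b y, B w0 (b 0)⟫_ℂ else 0)) := by
      simp only [e1]
      apply tendsto_finset_sum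
      intro w _
      split_ifs with hw
      · subst hw
        simp only [sub_self, add_zero]
        exact tendsto_const_nhds
      · exact limit_entry b (Ne.symm hw) y _
    have l2 : Tendsto (fun k => ⟪b (t k), x (b (sk k))⟫_ℂ) atTop (𝓝 0) := by
      simp only [e2]
      have h1 : Tendsto (fun k => ∑ v ∈ C.support,
          ⟪b (-(ph v y) + (ph [] (sk k) - ph (v ++ w0) (sk k))), C v (b 0)⟫_ℂ) atTop
          (𝓝 (∑ v ∈ C.support, (0 : ℂ))) := by
        apply tendsto_finset_sum
        intro v _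
        apply limit_entry b
        intro h
        have h2 := h.symm
        rw [List.append_eq_nil_iff] at h2
        exact hw0 h2.2
      rw [Finset.sum_const_zero] at h1
      have h2 := (Complex.continuous_conj.tendsto 0).comp h1
      have h8 : (starRingEnd ℂ) (0 : ℂ) = 0 := map_zero _
      rw [h8] at h2
      exact h2
    have h3 := tendsto_nhds_unique l1 l2
    rw [Finset.sum_ite_eq' B.support w0, if_pos hmem] at h3
    exact h3
  rw [← hBx, Finsupp.sum]
  apply Submodule.sum_mem
  intro w _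
  by_cases hw : w = []
  · subst hw
    exact hB []
  · rw [hzero w hw]
    exact Submodule.zero_mem _

/-- the rank-one projection -/
def pp : H →L[ℂ] H := (innerSL ℂ (b 0)).smulRight (b 0)

lemma pp_apply (x : H) : pp b x = ⟪b 0, x⟫_ℂ • b 0 := rfl

lemma pp_star : star (pp b) = pp b := by
  ext x
  apply ext_inner_left ℂ
  intro y
  rw [ContinuousLinearMap.star_eq_adjoint, ContinuousLinearMap.adjoint_inner_right, pp_apply,
    pp_apply, inner_smul_left, inner_smul_right, inner_conj_symm, mul_comm]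

lemma pp_mul : pp b * pp b = pp b := by
  ext x
  rw [ContinuousLinearMap.mul_apply, pp_apply, pp_apply, inner_smul_right]
  have : ⟪b 0, b 0⟫_ℂ = 1 := by
    classical
    rw [inner_b, if_pos rfl]
  rw [this, mul_one]

lemma pp_notin : pp b ∉ M b [] := by
  classical
  intro h
  rw [mem_M_nil] at h
  have h1 := congrArg (fun B : H →L[ℂ] H => B (b 0)) (h (sk 0))
  simp only [ContinuousLinearMap.mul_apply, L_b, pp_apply, zero_add, map_smul] at h1
  have hs : (0 : V) ≠ sk 0 := by
    intro h2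
    have := DFunLike.congr_fun h2 (List.replicate 0 true)
    simp [sk] at this
  rw [inner_b, inner_b, if_neg hs, if_pos rfl, zero_smul, one_smul] at h1
  have h2 : ‖b (sk 0)‖ = 1 := b.orthonormal.1 _
  rw [← h1, norm_zero] at h2
  norm_num at h2

/-- the two isometries -/
def S (i : Bool) : H →L[ℂ] H := W b (ph [i]) (ph_inj [i])

lemma S_b (i : Bool) (v : V) : S b i (b v) = b (ph [i] v) := W_b b _ _ v

lemma S_mem (i : Bool) : S b i ∈ M b [i] := by
  intro s
  apply ext_b b
  intro v
  rw [ContinuousLinearMap.mul_apply, ContinuousLinearMap.mul_apply, L_b, S_b, S_b, L_b, map_add]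

/-- the average -/
def AA : H →L[ℂ] H := (1 / 2 : ℂ) • (S b false + S b true)

lemma AA_mem : AA b ∈ T0 b :=
  Subalgebra.smul_mem _ (Subalgebra.add_mem _ (M_le_T0 b (S_mem b false)) (M_le_T0 b (S_mem b true))) _

lemma S_pp (i : Bool) : S b i * pp b = pp b := by
  ext x
  rw [ContinuousLinearMap.mul_apply, pp_apply, map_smul, S_b, (ph [i]).map_zero]

lemma star_S_pp (i : Bool) : star (S b i) * pp b = pp b := by
  have h1 : star (S b i) * S b i = 1 := star_W_mul b _ _
  calc star (S b i) * pp b = star (S b i) * (S b i * pp b) := by rw [S_pp]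
    _ = _ := by rw [← mul_assoc, h1, one_mul]

lemma star_S_S : star (S b false) * S b true = pp b := by
  classical
  apply ext_b2 b
  intro s t
  rw [ContinuousLinearMap.mul_apply, ContinuousLinearMap.star_eq_adjoint,
    ContinuousLinearMap.adjoint_inner_right, S_b, S_b, pp_apply, inner_smul_right, inner_b,
    inner_b, inner_b]
  by_cases h : ph [false] t = ph [true] s
  · have ht := ph_indep t s h
    have hs : s = 0 := by
      rw [ht, (ph [false]).map_zero] at h
      apply ph_inj [true]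
      rw [← h, (ph [true]).map_zero]
    rw [if_pos h, if_pos hs.symm, if_pos ht]
    simp
  · rw [if_neg h]
    by_cases hs : (0 : V) = s
    · by_cases ht : t = 0
      · exfalso
        apply h
        rw [ht, ← hs, (ph [false]).map_zero, (ph [true]).map_zero]
      · rw [if_neg ht, mul_zero]
    · rw [if_neg hs, zero_mul]

lemma star_S_S' : star (S b true) * S b false = pp b := by
  have h := congrArg star (star_S_S b)
  rw [star_mul, star_star, pp_star] at h
  exact h

lemma AA_pp : AA b * pp b = pp b := by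
  rw [AA, smul_mul_assoc, add_mul, S_pp, S_pp, ← two_smul ℂ (pp b), smul_smul]
  norm_num

lemma star_AA : star (AA b) = (1 / 2 : ℂ) • (star (S b false) + star (S b true)) := by
  rw [AA, star_smul, star_add]
  congr 1
  simp

lemma star_AA_pp : star (AA b) * pp b = pp b := by
  rw [star_AA, smul_mul_assoc, add_mul, star_S_pp, star_S_pp, ← two_smul ℂ (pp b), smul_smul]
  norm_num

lemma pp_AA : pp b * AA b = pp b := by
  have h := congrArg star (star_AA_pp b)
  rw [star_mul, star_star, pp_star] at h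
  exact h

lemma star_AA_AA : star (AA b) * AA b = (1 / 2 : ℂ) • (1 + pp b) := by
  have h0 : star (S b false) * S b false = 1 := star_W_mul b _ _
  have h1 : star (S b true) * S b true = 1 := star_W_mul b _ _
  rw [star_AA, AA, smul_mul_assoc, mul_smul_comm, smul_smul, add_mul, mul_add, mul_add, h0, h1,
    star_S_S, star_S_S']
  have : (1 : H →L[ℂ] H) + pp b + (pp b + 1) = (2 : ℂ) • (1 + pp b) := by
    rw [two_smul]; abel
  rw [this, smul_smul]
  norm_num

lemma norm_sub : ‖AA b - pp b‖ ^ 2 ≤ 1 / 2 := by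
  set q : H →L[ℂ] H := 1 - pp b with hq
  have hqs : star q = q := by rw [hq, star_sub, star_one, pp_star]
  have hqq : q * q = q := by
    rw [hq, mul_sub, sub_mul, sub_mul, one_mul, mul_one, one_mul, pp_mul]
    abel
  have hqn : ‖q‖ ≤ 1 := by
    have h1 := CStarRing.norm_star_mul_self (x := q)
    rw [hqs, hqq] at h1
    by_contra hlt
    push Not at hlt
    nlinarith
  have h2 : star (AA b - pp b) * (AA b - pp b) = (1 / 2 : ℂ) • q := by
    rw [star_sub, pp_star, sub_mul, mul_sub, mul_sub, star_AA_AA, star_AA_pp, pp_AA, pp_mul, hq,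
      sub_self, sub_zero, smul_add, smul_sub]
    module
  have h3 := CStarRing.norm_star_mul_self (x := AA b - pp b)
  rw [h2, norm_smul] at h3
  have h4 : ‖(1 / 2 : ℂ)‖ = 1 / 2 := by
    rw [norm_div, norm_one, Complex.norm_ofNat]
  rw [h4] at h3
  nlinarith

lemma pow_sub (n : ℕ) : (AA b - pp b) ^ (n + 1) = AA b ^ (n + 1) - pp b := by
  induction n with
  | zero => simp
  | succ n ih =>
    have h : AA b ^ (n + 1) * pp b = pp b := by
      clear ih
      induction n with
      | zero => rw [zero_add, pow_one, AA_pp]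
      | succ n ih => rw [pow_succ', mul_assoc, ih, AA_pp]
    rw [pow_succ, ih, mul_sub, sub_mul, sub_mul, h, pp_AA, pp_mul, ← pow_succ, sub_self, sub_zero]

theorem pp_mem_closure : pp b ∈ closure (T0 b : Set (H →L[ℂ] H)) := by
  have h1 : ‖AA b - pp b‖ < 1 := by
    have := norm_sub b
    by_contra hlt
    push Not at hlt
    nlinarith
  have h2 : Tendsto (fun n : ℕ => (AA b - pp b) ^ (n + 1)) atTop (𝓝 0) :=
    (tendsto_pow_atTop_nhds_zero_of_norm_lt_one h1).comp (tendsto_add_atTop_nat 1)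
  have h3 : Tendsto (fun n : ℕ => AA b ^ (n + 1)) atTop (𝓝 (pp b)) := by
    have h4 := h2.add_const (pp b)
    rw [zero_add] at h4
    refine h4.congr fun n => ?_
    rw [pow_sub, sub_add_cancel]
  exact mem_closure_of_tendsto h3 (Eventually.of_forall fun n => Subalgebra.pow_mem _ (AA_mem b) _)

/-- the diagonal of an algebra -/
def dg (T : Subalgebra ℂ (H →L[ℂ] H)) : Set (H →L[ℂ] H) := {x | x ∈ T ∧ star x ∈ T}

lemma dg_eq {T : Subalgebra ℂ (H →L[ℂ] H)} (hT : T0 b ≤ T)
    (h : Set.centralizer (dg T) = dg T) : dg T = (M b [] : Set (H →L[ℂ] H)) := by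
  have h1 : (M b [] : Set (H →L[ℂ] H)) ⊆ dg T := fun x hx =>
    ⟨hT (M_le_T0 b hx), hT (M_le_T0 b (star_mem_M b hx))⟩
  apply Set.Subset.antisymm _ h1
  rw [← h, ← centralizer_M b]
  exact Set.centralizer_subset h1

lemma dg_T0 : dg (T0 b) = (M b [] : Set (H →L[ℂ] H)) := by
  apply Set.Subset.antisymm
  · rintro x ⟨h1, h2⟩
    exact diag_T0 b h1 h2
  · intro x hx
    exact ⟨M_le_T0 b hx, M_le_T0 b (star_mem_M b hx)⟩

theorem exists_maximal : ∃ T : Subalgebra ℂ (H →L[ℂ] H), T0 b ≤ T ∧
    Set.centralizer (dg T) = dg T ∧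
    ∀ T' : Subalgebra ℂ (H →L[ℂ] H), T ≤ T' → Set.centralizer (dg T') = dg T' → T' = T := by
  let SS : Set (Subalgebra ℂ (H →L[ℂ] H)) :=
    {T | T0 b ≤ T ∧ dg T = (M b [] : Set (H →L[ℂ] H))}
  obtain ⟨T, hT0, hT⟩ := zorn_le_nonempty₀ SS (by
    intro c hc hchain y hy
    have hdir : DirectedOn (· ≤ ·) c := hchain.directedOn
    have hmem : ∀ x, x ∈ sSup c ↔ ∃ T ∈ c, x ∈ T := by
      intro x
      haveI : Nonempty c := ⟨⟨y, hy⟩⟩
      rw [sSup_eq_iSup']
      have h5 := Subalgebra.coe_iSup_of_directed (K := fun T : c => (T : Subalgebra ℂ (H →L[ℂ] H)))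
        hdir.directed_val
      rw [← SetLike.mem_coe, h5, Set.mem_iUnion]
      constructor
      · rintro ⟨⟨T, hT⟩, hx⟩
        exact ⟨T, hT, hx⟩
      · rintro ⟨T, hT, hx⟩
        exact ⟨⟨T, hT⟩, hx⟩
    refine ⟨sSup c, ⟨(hc hy).1.trans (le_sSup hy), ?_⟩, fun z hz => le_sSup hz⟩
    apply Set.Subset.antisymm
    · rintro x ⟨h1, h2⟩
      obtain ⟨T1, hT1, hx1⟩ := (hmem x).mp h1
      obtain ⟨T2, hT2, hx2⟩ := (hmem _).mp h2
      obtain ⟨T3, hT3, h13, h23⟩ := hdir T1 hT1 T2 hT2
      rw [← (hc hT3).2]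
      exact ⟨h13 hx1, h23 hx2⟩
    · rw [← (hc hy).2]
      rintro x ⟨h1, h2⟩
      exact ⟨(hmem _).mpr ⟨y, hy, h1⟩, (hmem _).mpr ⟨y, hy, h2⟩⟩) (T0 b) ⟨le_rfl, dg_T0 b⟩
  refine ⟨T, hT0, ?_, ?_⟩
  · rw [hT.prop.2]
    exact centralizer_M b
  · intro T' h1 h2
    have h3 : T' ∈ SS := ⟨hT0.trans h1, dg_eq b (hT0.trans h1) h2⟩
    exact le_antisymm (hT.le_of_ge h3 h1) h1

end special

end

end Pool.Agent.H759R2.Tri
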